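import Pool.Agent.Helper808_Bin.Grp

/-!
# Finitely generated `k`-finite `p`-groups with an infinite non-central minimal normal subgroup

Written by helper808 for MP_eac726_al.
-/

set_option autoImplicit false

namespace Pool.Agent.Results.MP_eac726_al.Monolith

/-- For every prime `p` and every `k` there is a finitely generated `p`-group `G` in which any `k`
elements generate a finite subgroup, with an infinite abelian normal subgroup `N` which lies in
every nontrivial normal subgroup, is its own centralizer, and has a complement `H` that is a
maximal subgroup of `G`. -/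
theorem result (p k : ℕ) (hp : p.Prime) :
    ∃ (G : Type) (_ : Group G) (N H : Subgroup G),
      Group.FG G ∧ IsPGroup p G ∧
      (∀ g : Fin k → G, Finite (Subgroup.closure (Set.range g))) ∧
      N.Normal ∧ Infinite N ∧ (∀ x ∈ N, ∀ y ∈ N, x * y = y * x) ∧
      (∀ M : Subgroup G, M.Normal → M ≠ ⊥ → N ≤ M) ∧
      Subgroup.centralizer (N : Set G) = N ∧
      IsCoatom H ∧ H ⊓ N = ⊥ ∧ H ⊔ N = ⊤ :=
  Pool.Agent.Helper808_Bin.main p k hp

end Pool.Agent.Results.MP_eac726_al.Monolith
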